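import Mathlib

/-!
# Spaces with the property of the six exponentials theorem: multiplicative independence

`F` is an algebraically closed field and `K` an extension field.
-/

set_option autoImplicit false

namespace Pool.Agent.U979.GX

open Finset

variable {F K : Type*} [Field F] [Field K] [Algebra F K]

/-- the constants -/
def Cs (F K : Type*) [Field F] [Field K] [Algebra F K] : Subfield K := (algebraMap F K).fieldRange

theorem mem_Cs {x : K} : x ∈ Cs F K ↔ ∃ c : F, algebraMap F K c = x := RingHom.mem_fieldRange

theorem algebraMap_mem (c : F) : algebraMap F K c ∈ Cs F K := mem_Cs.mpr ⟨c, rfl⟩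

/-- the conclusion of the six exponentials theorem for a space `S` -/
def Six (S : Submodule F K) : Prop :=
  ∀ ρ : K, ρ ∉ Cs F K → ∀ w : Fin 3 → K, LinearIndependent F w →
    (∀ j, w j ∈ S) → (∀ j, ρ * w j ∈ S) → False

theorem S_mul {S : Submodule F K} {a z : K} (ha : a ∈ Cs F K) (hz : z ∈ S) : a * z ∈ S := by
  obtain ⟨c, rfl⟩ := mem_Cs.mp ha
  rw [← Algebra.smul_def]
  exact S.smul_mem c hz

/-- `a, b, c` are linearly dependent over the constants -/
def Dep (F : Type*) {K : Type*} [Field F] [Field K] [Algebra F K] (a b c : K) : Prop :=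
  ∃ α β γ : K, α ∈ Cs F K ∧ β ∈ Cs F K ∧ γ ∈ Cs F K ∧
  (α ≠ 0 ∨ β ≠ 0 ∨ γ ≠ 0) ∧ α * a + β * b + γ * c = 0

theorem dep3 {S : Submodule F K} (hS : Six S) {ρ : K} (hρ : ρ ∉ Cs F K) {y1 y2 y3 : K}
    (h1 : y1 ∈ S) (h2 : y2 ∈ S) (h3 : y3 ∈ S) (k1 : ρ * y1 ∈ S) (k2 : ρ * y2 ∈ S)
    (k3 : ρ * y3 ∈ S) : Dep F y1 y2 y3 := by
  by_contra hcon
  refine hS ρ hρ ![y1, y2, y3] ?_ ?_ ?_
  · rw [Fintype.linearIndependent_iff]
    intro g hg
    rw [Fin.sum_univ_three] at hg
    simp only [Matrix.cons_val_zero, Matrix.cons_val_one, Matrix.cons_val, Algebra.smul_def] at hg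
    by_contra hne
    apply hcon
    refine ⟨_, _, _, algebraMap_mem (g 0), algebraMap_mem (g 1), algebraMap_mem (g 2), ?_, hg⟩
    by_contra hall
    push Not at hall
    apply hne
    intro i
    fin_cases i
    · exact (map_eq_zero _).mp hall.1
    · exact (map_eq_zero _).mp hall.2.1
    · exact (map_eq_zero _).mp hall.2.2
  · intro j
    fin_cases j
    · exact h1
    · exact h2
    · exact h3
  · intro j
    fin_cases j
    · exact k1
    · exact k2
    · exact k3

/-- a third element of a two dimensional space is a combination of the first two -/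
theorem comb {y1 y2 y3 : K} (h12 : y2 / y1 ∉ Cs F K) (hdep : Dep F y1 y2 y3) :
    ∃ α β : K, α ∈ Cs F K ∧ β ∈ Cs F K ∧ y3 = α * y1 + β * y2 := by
  obtain ⟨a, b, c, ha, hb, hc, hne, h⟩ := hdep
  have hy1 : y1 ≠ 0 := by
    rintro rfl
    rw [div_zero] at h12
    exact h12 (zero_mem _)
  by_cases hc0 : c = 0
  · exfalso
    subst hc0
    have h' : a * y1 + b * y2 = 0 := by linear_combination h
    by_cases hb0 : b = 0
    · subst hb0
      have : a = 0 := by
        rcases mul_eq_zero.mp (show a * y1 = 0 by linear_combination h') with h3 | h3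
        · exact h3
        · exact absurd h3 hy1
      rcases hne with h3 | h3 | h3
      · exact h3 this
      · exact h3 rfl
      · exact h3 rfl
    · apply h12
      have : y2 / y1 = -a / b := by
        field_simp
        linear_combination h'
      rw [this]
      exact div_mem (neg_mem ha) hb
  · refine ⟨-a / c, -b / c, div_mem (neg_mem ha) hc, div_mem (neg_mem hb) hc, ?_⟩
    field_simp
    linear_combination h

theorem transcendental_of [IsAlgClosed F] {x : K} (hx : x ∉ Cs F K) : Transcendental F x := by
  intro h
  apply hx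
  have hint : IsIntegral F x := h.isIntegral
  have hdeg := IsAlgClosed.degree_eq_one_of_irreducible F (minpoly.irreducible hint)
  rw [minpoly.degree_eq_one_iff] at hdeg
  exact mem_Cs.mpr hdeg

/-- **Unique factorisation.** Pairwise non proportional linear polynomials at a transcendental point
are multiplicatively independent. -/
theorem mul_indep [IsAlgClosed F] {ι : Type*} [DecidableEq ι] (S : Finset ι) {τ : K}
    (hτ : τ ∉ Cs F K)
    (α β : ι → F) (hne : ∀ s ∈ S, ∀ t ∈ S, s ≠ t → α s * β t ≠ α t * β s) (n : ι → ℤ)
    (hn : ∑ s ∈ S, n s = 0) (c : K) (hc : c ∈ Cs F K)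
    (hprod : ∏ s ∈ S, (algebraMap F K (α s) + algebraMap F K (β s) * τ) ^ (n s) = c) :
    ∀ s ∈ S, n s = 0 := by
  classical
  by_cases hcard : S.card ≤ 1
  · intro s hs
    have : S = {s} := by
      apply Finset.eq_singleton_iff_unique_mem.mpr
      refine ⟨hs, fun t ht => ?_⟩
      exact Finset.card_le_one.mp hcard t ht s hs
    rw [this, Finset.sum_singleton] at hn
    exact hn
  push Not at hcard
  have hτ' : Transcendental F τ := transcendental_of hτ
  -- all the factors are nonzero
  have hx : ∀ s ∈ S, (algebraMap F K (α s) + algebraMap F K (β s) * τ) ≠ 0 := by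
    intro s hs h0
    obtain ⟨t, ht, hts⟩ : ∃ t ∈ S, t ≠ s := Finset.exists_mem_ne hcard s
    have h1 : Polynomial.aeval τ (Polynomial.C (α s) + Polynomial.C (β s) * Polynomial.X) = 0 := by
      simp only [map_add, map_mul, Polynomial.aeval_C, Polynomial.aeval_X]
      exact h0
    have h2 := (transcendental_iff.mp hτ') _ h1
    have h3 : α s = 0 := by
      have := congrArg (fun p => Polynomial.coeff p 0) h2
      simpa using this
    have h4 : β s = 0 := by
      have := congrArg (fun p => Polynomial.coeff p 1) h2
      simpa using this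
    exact hne s hs t ht (Ne.symm hts) (by rw [h3, h4]; ring)
  have hc0 : c ≠ 0 := by
    rw [← hprod]
    exact Finset.prod_ne_zero_iff.mpr (fun s hs => zpow_ne_zero _ (hx s hs))
  obtain ⟨c', hc'⟩ := mem_Cs.mp hc
  -- polynomial identity
  set f : ι → Polynomial F := fun s => Polynomial.C (α s) + Polynomial.C (β s) * Polynomial.X
    with hf
  set P : Polynomial F := ∏ s ∈ S, f s ^ (n s).toNat with hP
  set Q : Polynomial F := ∏ s ∈ S, f s ^ (-(n s)).toNat with hQ
  have hev : ∀ s, Polynomial.aeval τ (f s) =
      (algebraMap F K (α s) + algebraMap F K (β s) * τ) := by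
    intro s
    simp only [hf, map_add, map_mul, Polynomial.aeval_C, Polynomial.aeval_X]
  have hPQ : P = Polynomial.C c' * Q := by
    have h1 : Polynomial.aeval τ (P - Polynomial.C c' * Q) = 0 := by
      rw [map_sub, map_mul, Polynomial.aeval_C, hP, hQ, map_prod, map_prod]
      simp only [map_pow, hev]
      have h2 : ∏ s ∈ S, (algebraMap F K (α s) + algebraMap F K (β s) * τ) ^ (n s).toNat =
          c * ∏ s ∈ S, (algebraMap F K (α s) + algebraMap F K (β s) * τ) ^ (-(n s)).toNat := by
        rw [← hprod, ← Finset.prod_mul_distrib]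
        apply Finset.prod_congr rfl
        intro s hs
        rw [← zpow_natCast, ← zpow_natCast, ← zpow_add₀ (hx s hs)]
        congr 1
        have := Int.toNat_sub_toNat_neg (n s)
        omega
      rw [h2, hc']
      exact sub_self _
    have := (transcendental_iff.mp hτ') _ h1
    exact sub_eq_zero.mp this
  -- evaluation at the zero of a factor
  have key : ∀ s ∈ S, β s ≠ 0 → n s = 0 := by
    intro s hs hβ
    by_contra hns
    set x : F := -α s / β s with hx'
    have hFs : Polynomial.eval x (f s) = 0 := by
      simp only [hf, Polynomial.eval_add, Polynomial.eval_mul, Polynomial.eval_C, Polynomial.eval_X]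
      rw [hx']
      field_simp
      ring
    have hFt : ∀ t ∈ S, t ≠ s → Polynomial.eval x (f t) ≠ 0 := by
      intro t ht hts h0
      simp only [hf, Polynomial.eval_add, Polynomial.eval_mul, Polynomial.eval_C,
        Polynomial.eval_X] at h0
      rw [hx'] at h0
      field_simp at h0
      exact hne t ht s hs hts (by linear_combination h0)
    have hee := congrArg (Polynomial.eval x) hPQ
    rw [hP, hQ, Polynomial.eval_mul, Polynomial.eval_C, Polynomial.eval_prod,
      Polynomial.eval_prod] at hee
    simp only [Polynomial.eval_pow] at hee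
    have hc'0 : c' ≠ 0 := by
      rintro rfl
      apply hc0
      rw [← hc', map_zero]
    rcases lt_or_gt_of_ne hns with hneg | hpos
    · -- `n s < 0`
      have h1 : ∏ t ∈ S, Polynomial.eval x (f t) ^ (-(n t)).toNat = 0 := by
        apply Finset.prod_eq_zero hs
        rw [hFs]
        apply zero_pow
        omega
      have h2 : ∏ t ∈ S, Polynomial.eval x (f t) ^ (n t).toNat ≠ 0 := by
        apply Finset.prod_ne_zero_iff.mpr
        intro t ht
        by_cases hts : t = s
        · subst hts
          have : (n t).toNat = 0 := by omega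
          rw [this, pow_zero]
          exact one_ne_zero
        · exact pow_ne_zero _ (hFt t ht hts)
      apply h2
      rw [hee, h1, mul_zero]
    · have h1 : ∏ t ∈ S, Polynomial.eval x (f t) ^ (n t).toNat = 0 := by
        apply Finset.prod_eq_zero hs
        rw [hFs]
        apply zero_pow
        omega
      have h2 : ∏ t ∈ S, Polynomial.eval x (f t) ^ (-(n t)).toNat ≠ 0 := by
        apply Finset.prod_ne_zero_iff.mpr
        intro t ht
        by_cases hts : t = s
        · subst hts
          have : (-(n t)).toNat = 0 := by omega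
          rw [this, pow_zero]
          exact one_ne_zero
        · exact pow_ne_zero _ (hFt t ht hts)
      rw [h1] at hee
      exact (mul_ne_zero hc'0 h2) hee.symm
  intro s hs
  by_cases hβ : β s = 0
  · -- the only possible element with `β s = 0`
    have h1 : ∑ t ∈ S, n t = n s := by
      rw [← Finset.add_sum_erase S n hs]
      have : ∑ t ∈ S.erase s, n t = 0 := by
        apply Finset.sum_eq_zero
        intro t ht
        rw [Finset.mem_erase] at ht
        apply key t ht.2
        intro hβt
        exact hne t ht.2 s hs ht.1 (by rw [hβ, hβt]; ring)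
      rw [this, add_zero]
    rw [← h1, hn]
  · exact key s hs hβ

end Pool.Agent.U979.GX
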