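import Pool.Agent.U979.GX.Io
import Pool.Agent.U979.TW.Energy

/-!
# Elements of a space with the six exponentials property in sets with multiplicative structure
-/

set_option autoImplicit false

namespace Pool.Agent.U979.GX

open Finset
open scoped Pointwise

variable {F K : Type*} [Field F] [Field K] [Algebra F K]

/-- the rank of a set of complex numbers modulo the algebraic numbers -/
noncomputable def rk (F : Type*) {K : Type*} [Field F] [Field K] [Algebra F K] (A : Finset K) : ℕ :=
  Module.finrank ℚ (vectorSpan ℚ (io F '' (A : Set K)))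

/-- The elements of `B` which stay in `B` under a translation, modulo algebraic factors, are affinely
independent. -/
theorem shift_card [IsAlgClosed F] {S0 : Submodule F K} (hS0 : Six S0) (A : Finset K) (h0 : ∀ s ∈ A, s ≠ 0)
    (htr : ∀ s ∈ A, ∀ t ∈ A, s ≠ t → s / t ∉ Cs F K) (B : Finset K) (hBA : B ⊆ A)
    (hB : ∀ b ∈ B, b ∈ S0) (δ : VQ F K) (hδ : δ ≠ 0) (S : Finset K) (hSB : S ⊆ B)
    (hS : ∀ s ∈ S, ∃ c ∈ B, io F c = io F s + δ) : S.card ≤ rk F A + 1 := by
  classical
  have hdep : ∀ a ∈ S, ∀ b ∈ S, ∀ c ∈ S, Dep F a b c := by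
    intro a ha b hb c hc
    obtain ⟨a', ha', hae⟩ := hS a ha
    have ha0 := h0 a (hBA (hSB ha))
    have ha'0 := h0 a' (hBA ha')
    have hρ : a' / a ∉ Cs F K := by
      intro h
      rw [← io_eq ha'0 ha0] at h
      rw [h] at hae
      apply hδ
      exact left_eq_add.mp hae
    have hmem : ∀ s ∈ S, (a' / a) * s ∈ S0 := by
      intro s hs
      obtain ⟨s', hs', hse⟩ := hS s hs
      have hs0 := h0 s (hBA (hSB hs))
      have hs'0 := h0 s' (hBA hs')
      have h1 : (a' / a) * s / s' ∈ Cs F K := by
        rw [← io_eq (mul_ne_zero (div_ne_zero ha'0 ha0) hs0) hs'0,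
          io_mul (div_ne_zero ha'0 ha0) hs0, io_div ha'0 ha0, hae, hse]
        abel
      have h2 : (a' / a) * s = ((a' / a) * s / s') * s' := by field_simp
      rw [h2]
      exact S_mul h1 (hB s' hs')
    exact dep3 hS0 hρ (hB a (hSB ha)) (hB b (hSB hb)) (hB c (hSB hc)) (hmem a ha) (hmem b hb)
      (hmem c hc)
  have haff := aff S (fun s hs => h0 s (hBA (hSB hs)))
    (fun s hs t ht => htr s (hBA (hSB hs)) t (hBA (hSB ht))) hdep
  have h1 := haff.card_le_finrank_succ
  rw [Fintype.card_coe] at h1
  refine h1.trans ?_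
  apply Nat.add_le_add_right
  unfold rk
  have : FiniteDimensional ℚ (vectorSpan ℚ (io F '' (A : Set K))) :=
    finiteDimensional_vectorSpan_of_finite ℚ (A.finite_toSet.image (io F))
  apply Submodule.finrank_mono
  apply vectorSpan_mono
  rintro _ ⟨s, rfl⟩
  exact ⟨s, hBA (hSB s.2), rfl⟩

open Classical in
/-- **The rank bound.** -/
theorem rank_bound [IsAlgClosed F] {S0 : Submodule F K} (hS0 : Six S0) (A : Finset K) (h0 : ∀ s ∈ A, s ≠ 0)
    (htr : ∀ s ∈ A, ∀ t ∈ A, s ≠ t → s / t ∉ Cs F K) :
    (A.filter (· ∈ S0)).card * ((A.filter (· ∈ S0)).card - 1) ≤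
      (rk F A + 1) * ((A.image (io F) - A.image (io F)).card - 1) := by
  set B := A.filter (· ∈ S0) with hB
  have hBA : B ⊆ A := Finset.filter_subset _ _
  have hBL : ∀ b ∈ B, b ∈ S0 := fun b hb => (Finset.mem_filter.mp hb).2
  have hinj : Set.InjOn (io F) (A : Set K) := by
    intro s hs t ht hst
    by_contra hne
    exact htr s hs t ht hne ((io_eq (h0 s hs) (h0 t ht)).mp hst)
  have hcard : (B.image (io F)).card = B.card :=
    Finset.card_image_of_injOn (hinj.mono (by exact_mod_cast hBA))
  rw [← hcard]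
  apply Pool.Agent.U979.TW.count _ _ (Finset.image_subset_image hBA)
  intro δ hδ
  -- pull back to `B`
  have h1 : ((B.image (io F)).filter (fun b => b + δ ∈ B.image (io F))) =
      (B.filter (fun b => io F b + δ ∈ B.image (io F))).image (io F) := by
    rw [Finset.filter_image]
  rw [h1]
  refine Finset.card_image_le.trans ?_
  apply shift_card hS0 A h0 htr B hBA hBL δ hδ _ (Finset.filter_subset _ _)
  intro s hs
  rw [Finset.mem_filter, Finset.mem_image] at hs
  obtain ⟨c, hc, hce⟩ := hs.2
  exact ⟨c, hc, hce⟩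

open Classical in
theorem card_diff_le (A : Finset K) (h0 : ∀ s ∈ A, s ≠ 0) :
    (A.image (io F) - A.image (io F)).card ≤ (A / A).card := by
  have : A.image (io F) - A.image (io F) ⊆ (A / A).image (io F) := by
    intro x hx
    rw [Finset.mem_sub] at hx
    obtain ⟨a, ha, b, hb, rfl⟩ := hx
    rw [Finset.mem_image] at ha hb
    obtain ⟨a, ha, rfl⟩ := ha
    obtain ⟨b, hb, rfl⟩ := hb
    rw [← io_div (h0 a ha) (h0 b hb)]
    exact Finset.mem_image_of_mem (io F) (Finset.div_mem_div ha hb)
  exact (Finset.card_le_card this).trans Finset.card_image_le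

open Classical in
/-- **The bound in terms of the number of the quotients.** -/
theorem quot_bound [IsAlgClosed F] {S0 : Submodule F K} (hS0 : Six S0) (A : Finset K) (h0 : ∀ s ∈ A, s ≠ 0)
    (htr : ∀ s ∈ A, ∀ t ∈ A, s ≠ t → s / t ∉ Cs F K) :
    (A.filter (· ∈ S0)).card * ((A.filter (· ∈ S0)).card - 1) * A.card ≤ 4 * (A / A).card ^ 2 := by
  have hinj : Set.InjOn (io F) (A : Set K) := by
    intro s hs t ht hst
    by_contra hne
    exact htr s hs t ht hne ((io_eq (h0 s hs) (h0 t ht)).mp hst)
  have hcard : (A.image (io F)).card = A.card := Finset.card_image_of_injOn hinj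
  have h1 := rank_bound hS0 A h0 htr
  have h2 := Pool.Agent.U979.TW.frei (A.image (io F))
  rw [hcard, Finset.coe_image] at h2
  change rk F A * A.card ≤ _ at h2
  have h3 := card_diff_le (F := F) A h0
  have h4 : A.card ≤ (A.image (io F) - A.image (io F)).card := by
    rw [← hcard]
    exact Finset.card_le_card_sub_self
  set D := (A.image (io F) - A.image (io F)).card with hD
  calc (A.filter (· ∈ S0)).card * ((A.filter (· ∈ S0)).card - 1) * A.card
      ≤ ((rk F A + 1) * (D - 1)) * A.card := Nat.mul_le_mul_right _ h1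
    _ ≤ ((rk F A + 1) * D) * A.card := by gcongr; omega
    _ = (rk F A * A.card + A.card) * D := by ring
    _ ≤ (3 * D + D) * D := by gcongr
    _ = 4 * D ^ 2 := by ring
    _ ≤ 4 * (A / A).card ^ 2 := by gcongr

open Classical in
/-- products -/
theorem prod_bound [IsAlgClosed F] {S0 : Submodule F K} (hS0 : Six S0) (A : Finset K) (h0 : ∀ s ∈ A, s ≠ 0)
    (htr : ∀ s ∈ A, ∀ t ∈ A, s ≠ t → s / t ∉ Cs F K) :
    (A.filter (· ∈ S0)).card * ((A.filter (· ∈ S0)).card - 1) * A.card ^ 3 ≤
      4 * (A * A).card ^ 4 := by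
  have hinj : Set.InjOn (io F) (A : Set K) := by
    intro s hs t ht hst
    by_contra hne
    exact htr s hs t ht hne ((io_eq (h0 s hs) (h0 t ht)).mp hst)
  have hcard : (A.image (io F)).card = A.card := Finset.card_image_of_injOn hinj
  have h1 := rank_bound hS0 A h0 htr
  have h2 := Pool.Agent.U979.TW.frei (A.image (io F))
  rw [hcard, Finset.coe_image] at h2
  change rk F A * A.card ≤ _ at h2
  have h4 : A.card ≤ (A.image (io F) - A.image (io F)).card := by
    rw [← hcard]
    exact Finset.card_le_card_sub_self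
  set D := (A.image (io F) - A.image (io F)).card with hD
  have h5 : (A.filter (· ∈ S0)).card * ((A.filter (· ∈ S0)).card - 1) * A.card ≤ 4 * D ^ 2 := by
    calc (A.filter (· ∈ S0)).card * ((A.filter (· ∈ S0)).card - 1) * A.card
      ≤ ((rk F A + 1) * (D - 1)) * A.card := Nat.mul_le_mul_right _ h1
    _ ≤ ((rk F A + 1) * D) * A.card := by gcongr; omega
    _ = (rk F A * A.card + A.card) * D := by ring
    _ ≤ (3 * D + D) * D := by gcongr
    _ = 4 * D ^ 2 := by ring
  have h6 : D * A.card ≤ (A * A).card ^ 2 := by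
    have h7 := Finset.ruzsa_triangle_inequality_sub_add_add (A.image (io F)) (A.image (io F)) (A.image (io F))
    rw [hcard] at h7
    have h8 : (A.image (io F) + A.image (io F)).card ≤ (A * A).card := by
      have : A.image (io F) + A.image (io F) ⊆ (A * A).image (io F) := by
        intro x hx
        rw [Finset.mem_add] at hx
        obtain ⟨a, ha, b, hb, rfl⟩ := hx
        rw [Finset.mem_image] at ha hb
        obtain ⟨a, ha, rfl⟩ := ha
        obtain ⟨b, hb, rfl⟩ := hb
        rw [← io_mul (h0 a ha) (h0 b hb)]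
        exact Finset.mem_image_of_mem (io F) (Finset.mul_mem_mul ha hb)
      exact (Finset.card_le_card this).trans Finset.card_image_le
    calc D * A.card ≤ (A.image (io F) + A.image (io F)).card * (A.image (io F) + A.image (io F)).card := h7
      _ ≤ (A * A).card * (A * A).card := Nat.mul_le_mul h8 h8
      _ = (A * A).card ^ 2 := by ring
  calc (A.filter (· ∈ S0)).card * ((A.filter (· ∈ S0)).card - 1) * A.card ^ 3
      = ((A.filter (· ∈ S0)).card * ((A.filter (· ∈ S0)).card - 1) * A.card) * A.card ^ 2 := by ring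
    _ ≤ (4 * D ^ 2) * A.card ^ 2 := Nat.mul_le_mul_right _ h5
    _ = 4 * (D * A.card) ^ 2 := by ring
    _ ≤ 4 * ((A * A).card ^ 2) ^ 2 := by gcongr
    _ = 4 * (A * A).card ^ 4 := by ring

end Pool.Agent.U979.GX
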