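import Pool.Agent.U979.GX.Count
import Pool.Agent.U979.TW.EnFin

/-!
# The multiplicative energy of a set in a space with the six exponentials property
-/

set_option autoImplicit false

namespace Pool.Agent.U979.GX

open Finset
open scoped Pointwise

variable {F K : Type*} [Field F] [Field K] [Algebra F K]

/-- Three elements `b, b', b''` of the plane of `b1, b2` which can be translated to the same
element `c` coincide in pairs. -/
theorem two_aux [IsAlgClosed F] {S0 : Submodule F K} (hS0 : Six S0) {b1 b2 c b b' b'' : K} (h12 : b1 / b2 ∉ Cs F K)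
    (hbb' : b' / b ∉ Cs F K) (hbb'' : b'' / b ∉ Cs F K)
    (hb'b'' : b'' / b' ∉ Cs F K) (hc0 : c ≠ 0)
    (hd : Dep F b b' b'')
    (h1 : c / b * b1 ∈ S0) (h2 : c / b * b2 ∈ S0) (h1' : c / b' * b1 ∈ S0) (h2' : c / b' * b2 ∈ S0)
    (h1'' : c / b'' * b1 ∈ S0) (h2'' : c / b'' * b2 ∈ S0) : False := by
  have hb0 : b ≠ 0 := by rintro rfl; exact hbb' (by rw [div_zero]; exact zero_mem _)
  have hb'0 : b' ≠ 0 := by rintro rfl; exact hb'b'' (by rw [div_zero]; exact zero_mem _)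
  have hb''0 : b'' ≠ 0 := by rintro rfl; exact hbb'' (by rw [zero_div]; exact zero_mem _)
  have hb20 : b2 ≠ 0 := by rintro rfl; exact h12 (by rw [div_zero]; exact zero_mem _)
  -- `b''` in terms of `b`, `b'`
  obtain ⟨x, y, hx, hy, hxy⟩ := comb hbb' hd
  have hx0 : x ≠ 0 := by
    rintro rfl
    apply hb'b''
    rw [hxy, zero_mul, zero_add, mul_div_assoc, div_self hb'0, mul_one]
    exact hy
  have hy0 : y ≠ 0 := by
    rintro rfl
    apply hbb''
    rw [hxy, zero_mul, add_zero, mul_div_assoc, div_self hb0, mul_one]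
    exact hx
  -- the multipliers are dependent
  obtain ⟨a, a', a'', ha, ha', ha'', hne, hsum⟩ := dep3 hS0 (ρ := b1 / b2) h12 h2 h2' h2''
    (by rw [show b1 / b2 * (c / b * b2) = c / b * b1 by field_simp]; exact h1)
    (by rw [show b1 / b2 * (c / b' * b2) = c / b' * b1 by field_simp]; exact h1')
    (by rw [show b1 / b2 * (c / b'' * b2) = c / b'' * b1 by field_simp]; exact h1'')
  have hrel : a * (b' * b'') + a' * (b * b'') + a'' * (b * b') = 0 := by
    have h3 : c * b2 * (a * (b' * b'') + a' * (b * b'') + a'' * (b * b')) = 0 := by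
      have : c * b2 * (a * (b' * b'') + a' * (b * b'') + a'' * (b * b')) =
          (b * b' * b'') * (a * (c / b * b2) + a' * (c / b' * b2) + a'' * (c / b'' * b2)) := by
        field_simp
      rw [this, hsum, mul_zero]
    rcases mul_eq_zero.mp h3 with h4 | h4
    · exact absurd h4 (mul_ne_zero hc0 hb20)
    · exact h4
  -- polynomial in `θ = b' / b`
  set θ := b' / b with hθ
  have hb' : b' = θ * b := by rw [hθ]; field_simp
  have hpol : a' * x + (a * x + a' * y + a'') * θ + a * y * θ ^ 2 = 0 := by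
    have h3 : b ^ 2 * (a' * x + (a * x + a' * y + a'') * θ + a * y * θ ^ 2) = 0 := by
      rw [← hrel, hxy, hb']
      ring
    rcases mul_eq_zero.mp h3 with h4 | h4
    · exact absurd h4 (pow_ne_zero 2 hb0)
    · exact h4
  obtain ⟨x', rfl⟩ := mem_Cs.mp hx
  obtain ⟨y', rfl⟩ := mem_Cs.mp hy
  obtain ⟨c0, rfl⟩ := mem_Cs.mp ha
  obtain ⟨c1, rfl⟩ := mem_Cs.mp ha'
  obtain ⟨c2, rfl⟩ := mem_Cs.mp ha''
  have hθ' : Transcendental F θ := transcendental_of hbb'
  have hP := (transcendental_iff.mp hθ') (Polynomial.C (c1 * x') +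
    Polynomial.C (c0 * x' + c1 * y' + c2) * Polynomial.X +
    Polynomial.C (c0 * y') * Polynomial.X ^ 2) (by
      simp only [map_add, map_mul, map_pow, Polynomial.aeval_C, Polynomial.aeval_X]
      linear_combination hpol)
  have e0 : c1 * x' = 0 := by
    have := congrArg (fun p => Polynomial.coeff p 0) hP
    simpa [Polynomial.coeff_X_zero, -mul_eq_zero] using this
  have e1 : c0 * x' + c1 * y' + c2 = 0 := by
    have := congrArg (fun p => Polynomial.coeff p 1) hP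
    simpa [Polynomial.coeff_X_one, Polynomial.coeff_X_pow, -map_add, -map_mul] using this
  have e2 : c0 * y' = 0 := by
    have := congrArg (fun p => Polynomial.coeff p 2) hP
    simpa [Polynomial.coeff_X, Polynomial.coeff_X_pow, Polynomial.coeff_C, -mul_eq_zero, -map_mul] using this
  have hx'0 : x' ≠ 0 := by rintro rfl; exact hx0 (map_zero _)
  have hy'0 : y' ≠ 0 := by rintro rfl; exact hy0 (map_zero _)
  have g0 : c1 = 0 := (mul_eq_zero.mp e0).resolve_right hx'0
  have g2 : c0 = 0 := (mul_eq_zero.mp e2).resolve_right hy'0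
  have g1 : c2 = 0 := by rw [g0, g2] at e1; simpa using e1
  rcases hne with h | h | h
  · exact h (by rw [g2, map_zero])
  · exact h (by rw [g0, map_zero])
  · exact h (by rw [g1, map_zero])

open Classical in
/-- the image of `B` modulo the algebraic numbers has the property `Two` -/
theorem two_of [IsAlgClosed F] {S0 : Submodule F K} (hS0 : Six S0) (B : Finset K) (h0 : ∀ s ∈ B, s ≠ 0)
    (htr : ∀ s ∈ B, ∀ t ∈ B, s ≠ t → s / t ∉ Cs F K) (hB : ∀ b ∈ B, b ∈ S0) :
    Pool.Agent.U979.TW.Two (B.image (io F)) := by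
  intro β1 hβ1 β2 hβ2 hne γ hγ
  rw [Finset.mem_image] at hβ1 hβ2 hγ
  obtain ⟨b1, hb1, rfl⟩ := hβ1
  obtain ⟨b2, hb2, rfl⟩ := hβ2
  obtain ⟨c, hc, rfl⟩ := hγ
  have h12 : b1 ≠ b2 := fun h => hne (by rw [h])
  by_contra hcon
  push Not at hcon
  obtain ⟨x, hx, y, hy, z, hz, hxy, hxz, hyz⟩ := Finset.two_lt_card.mp hcon
  rw [Finset.mem_filter, Finset.mem_image] at hx hy hz
  obtain ⟨⟨x, hxB, rfl⟩, hx1, hx2, hx3⟩ := hx
  obtain ⟨⟨y, hyB, rfl⟩, hy1, hy2, hy3⟩ := hy
  obtain ⟨⟨z, hzB, rfl⟩, hz1, hz2, hz3⟩ := hz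
  have hmem : ∀ s ∈ B, ∀ w ∈ B, io F s + (io F c - io F w) ∈ B.image (io F) → c / w * s ∈ S0 := by
    intro s hs w hw h
    rw [Finset.mem_image] at h
    obtain ⟨t, ht, hte⟩ := h
    have h1 : c / w * s / t ∈ Cs F K := by
      rw [← io_eq (mul_ne_zero (div_ne_zero (h0 c hc) (h0 w hw)) (h0 s hs)) (h0 t ht),
        io_mul (div_ne_zero (h0 c hc) (h0 w hw)) (h0 s hs), io_div (h0 c hc) (h0 w hw), hte]
      abel
    have ht0 := h0 t ht
    have h2 : c / w * s = (c / w * s / t) * t := by field_simp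
    rw [h2]
    exact S_mul h1 (hB t ht)
  have hxy' : x ≠ y := fun h => hxy (by rw [h])
  have hxz' : x ≠ z := fun h => hxz (by rw [h])
  have hyz' : y ≠ z := fun h => hyz (by rw [h])
  -- each of `x`, `y`, `z` depends on `b1`, `b2`
  have hdep : ∀ w ∈ B, io F c ≠ io F w → io F b1 + (io F c - io F w) ∈ B.image (io F) →
      io F b2 + (io F c - io F w) ∈ B.image (io F) → Dep F b1 b2 w := by
    intro w hw hcw h1 h2
    have hρ : c / w ∉ Cs F K := by
      intro h
      exact hcw ((io_eq (h0 c hc) (h0 w hw)).mpr h)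
    refine dep3 hS0 hρ (hB b1 hb1) (hB b2 hb2) (hB w hw) (hmem b1 hb1 w hw h1) (hmem b2 hb2 w hw h2) ?_
    rw [div_mul_cancel₀ _ (h0 w hw)]
    exact hB c hc
  have t21 := htr b2 hb2 b1 hb1 (Ne.symm h12)
  obtain ⟨p1, q1, hp1, hq1, e1⟩ := comb t21 (hdep x hxB hx1 hx2 hx3)
  obtain ⟨p2, q2, hp2, hq2, e2⟩ := comb t21 (hdep y hyB hy1 hy2 hy3)
  obtain ⟨p3, q3, hp3, hq3, e3⟩ := comb t21 (hdep z hzB hz1 hz2 hz3)
  have hdxyz : Dep F x y z := by
    by_cases hdet : p1 * q2 - p2 * q1 = 0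
    · -- `x` and `y` would be proportional
      exfalso
      apply htr x hxB y hyB hxy'
      have hy0 := h0 y hyB
      by_cases hq20 : q2 = 0
      · have hp20 : p2 ≠ 0 := by
          rintro rfl
          apply hy0
          rw [e2, hq20]; ring
        have hq10 : q1 = 0 := by
          rw [hq20] at hdet
          have : p2 * q1 = 0 := by linear_combination -hdet
          exact (mul_eq_zero.mp this).resolve_left hp20
        have hb10 := h0 b1 hb1
        rw [e1, e2, hq10, hq20, zero_mul, add_zero, add_zero,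
          mul_div_mul_right _ _ hb10]
        exact div_mem hp1 hp2
      · have : x / y = q1 / q2 := by
          rw [div_eq_div_iff hy0 hq20, e1, e2]
          linear_combination b1 * hdet
        rw [this]
        exact div_mem hq1 hq2
    · refine ⟨q2 * p3 - p2 * q3, p1 * q3 - q1 * p3, -(p1 * q2 - p2 * q1), ?_, ?_, ?_, ?_, ?_⟩
      · exact sub_mem (mul_mem hq2 hp3) (mul_mem hp2 hq3)
      · exact sub_mem (mul_mem hp1 hq3) (mul_mem hq1 hp3)
      · exact neg_mem (sub_mem (mul_mem hp1 hq2) (mul_mem hp2 hq1))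
      · exact Or.inr (Or.inr (neg_ne_zero.mpr hdet))
      · rw [e1, e2, e3]
        ring
  exact two_aux hS0 (htr b1 hb1 b2 hb2 h12) (htr y hyB x hxB (Ne.symm hxy'))
    (htr z hzB x hxB (Ne.symm hxz')) (htr z hzB y hyB (Ne.symm hyz')) (h0 c hc) hdxyz
    (hmem b1 hb1 x hxB hx2) (hmem b2 hb2 x hxB hx3) (hmem b1 hb1 y hyB hy2) (hmem b2 hb2 y hyB hy3)
    (hmem b1 hb1 z hzB hz2) (hmem b2 hb2 z hzB hz3)

open Classical in
/-- the pairs with a given quotient modulo the algebraic numbers -/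
theorem fiber_eq [IsAlgClosed F] (B : Finset K) (h0 : ∀ s ∈ B, s ≠ 0)
    (htr : ∀ s ∈ B, ∀ t ∈ B, s ≠ t → s / t ∉ Cs F K) (δ : VQ F K) :
    ((B ×ˢ B).filter (fun p : K × K => io F p.2 - io F p.1 = δ)).card = Pool.Agent.U979.TW.sh (B.image (io F)) δ := by
  have hinj : Set.InjOn (io F) (B : Set K) := by
    intro s hs t ht hst
    by_contra hne
    exact htr s hs t ht hne ((io_eq (h0 s hs) (h0 t ht)).mp hst)
  unfold Pool.Agent.U979.TW.sh
  apply Finset.card_bij (fun p _ => io F p.1)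
  · intro p hp
    rw [Finset.mem_filter, Finset.mem_product] at hp
    rw [Finset.mem_filter, ← hp.2, add_sub_cancel]
    exact ⟨Finset.mem_image_of_mem (io F) hp.1.1, Finset.mem_image_of_mem (io F) hp.1.2⟩
  · intro p hp q hq hpq
    rw [Finset.mem_filter, Finset.mem_product] at hp hq
    have h1 : p.1 = q.1 := hinj (by exact_mod_cast hp.1.1) (by exact_mod_cast hq.1.1) hpq
    have h2 : io F p.2 = io F q.2 := by
      have h3 : io F p.2 - io F p.1 = io F q.2 - io F q.1 := by rw [hp.2, hq.2]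
      rw [h1] at h3
      exact sub_left_inj.mp h3
    exact Prod.ext h1 (hinj (by exact_mod_cast hp.1.2) (by exact_mod_cast hq.1.2) h2)
  · intro β hβ
    rw [Finset.mem_filter, Finset.mem_image, Finset.mem_image] at hβ
    obtain ⟨⟨a, ha, rfl⟩, b, hb, hbe⟩ := hβ
    refine ⟨(a, b), ?_, rfl⟩
    rw [Finset.mem_filter, Finset.mem_product]
    refine ⟨⟨ha, hb⟩, ?_⟩
    simp only
    rw [hbe]
    abel

open Classical in
theorem quads [IsAlgClosed F] {S0 : Submodule F K} (hS0 : Six S0) (B : Finset K) (h0 : ∀ s ∈ B, s ≠ 0)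
    (htr : ∀ s ∈ B, ∀ t ∈ B, s ≠ t → s / t ∉ Cs F K) (hB : ∀ b ∈ B, b ∈ S0) :
    ((((B ×ˢ B) ×ˢ (B ×ˢ B)).filter (fun p => (p.1.2 * p.2.1) / (p.1.1 * p.2.2) ∈ Cs F K)).card : ℝ) ≤ 4 * (B.card : ℝ) ^ (5 / 2 : ℝ) := by
  have hinj : Set.InjOn (io F) (B : Set K) := by
    intro s hs t ht hst
    by_contra hne
    exact htr s hs t ht hne ((io_eq (h0 s hs) (h0 t ht)).mp hst)
  have hcard : (B.image (io F)).card = B.card := Finset.card_image_of_injOn hinj
  have h1 : (((B ×ˢ B) ×ˢ (B ×ˢ B)).filter (fun p => (p.1.2 * p.2.1) / (p.1.1 * p.2.2) ∈ Cs F K)) = ((B ×ˢ B) ×ˢ (B ×ˢ B)).filter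
      (fun p => (fun q : K × K => io F q.2 - io F q.1) p.1 =
        (fun q : K × K => io F q.2 - io F q.1) p.2) := by
    apply Finset.filter_congr
    intro p hp
    rw [Finset.mem_product, Finset.mem_product, Finset.mem_product] at hp
    have a1 := h0 _ hp.1.1
    have a2 := h0 _ hp.1.2
    have a3 := h0 _ hp.2.1
    have a4 := h0 _ hp.2.2
    rw [← io_eq (mul_ne_zero a2 a3) (mul_ne_zero a1 a4), io_mul a2 a3, io_mul a1 a4]
    simp only
    rw [sub_eq_sub_iff_add_eq_add, add_comm (io F p.2.2)]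
  rw [h1, Pool.Agent.U979.TW.card_pairs (B ×ˢ B) (fun q : K × K => io F q.2 - io F q.1) (B.image (io F) - B.image (io F)) (by
    intro p hp
    rw [Finset.mem_product] at hp
    exact Finset.sub_mem_sub (Finset.mem_image_of_mem (io F) hp.2) (Finset.mem_image_of_mem (io F) hp.1))]
  have h2 := Pool.Agent.U979.TW.second (B.image (io F)) (two_of hS0 B h0 htr hB)
  rw [hcard] at h2
  refine le_trans (le_trans (le_of_eq ?_) h2) (Pool.Agent.U979.TW.sqrt_pow B.card)
  push_cast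
  apply Finset.sum_congr rfl
  intro δ _
  rw [fiber_eq B h0 htr δ]

open Classical in
theorem sexts [IsAlgClosed F] {S0 : Submodule F K} (hS0 : Six S0) (B : Finset K) (h0 : ∀ s ∈ B, s ≠ 0)
    (htr : ∀ s ∈ B, ∀ t ∈ B, s ≠ t → s / t ∉ Cs F K) (hB : ∀ b ∈ B, b ∈ S0) :
    (((B ×ˢ B) ×ˢ (B ×ˢ B) ×ˢ (B ×ˢ B)).filter (fun p => (p.1.2 * p.2.1.1) / (p.1.1 * p.2.1.2) ∈ Cs F K ∧ (p.1.2 * p.2.2.1) / (p.1.1 * p.2.2.2) ∈ Cs F K)).card ≤ 5 * B.card ^ 3 ∧
    B.card ^ 3 ≤ 5 * (B / B).card ^ 2 := by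
  have hinj : Set.InjOn (io F) (B : Set K) := by
    intro s hs t ht hst
    by_contra hne
    exact htr s hs t ht hne ((io_eq (h0 s hs) (h0 t ht)).mp hst)
  have hcard : (B.image (io F)).card = B.card := Finset.card_image_of_injOn hinj
  have h2 := Pool.Agent.U979.TW.third (B.image (io F)) (two_of hS0 B h0 htr hB)
  rw [hcard] at h2
  constructor
  · have h1 : (((B ×ˢ B) ×ˢ (B ×ˢ B) ×ˢ (B ×ˢ B)).filter (fun p => (p.1.2 * p.2.1.1) / (p.1.1 * p.2.1.2) ∈ Cs F K ∧ (p.1.2 * p.2.2.1) / (p.1.1 * p.2.2.2) ∈ Cs F K)) = ((B ×ˢ B) ×ˢ (B ×ˢ B) ×ˢ (B ×ˢ B)).filter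
      (fun p => (fun q : K × K => io F q.2 - io F q.1) p.1 =
        (fun q : K × K => io F q.2 - io F q.1) p.2.1 ∧ (fun q : K × K => io F q.2 - io F q.1) p.1 =
        (fun q : K × K => io F q.2 - io F q.1) p.2.2) := by
      apply Finset.filter_congr
      intro p hp
      rw [Finset.mem_product, Finset.mem_product, Finset.mem_product, Finset.mem_product,
        Finset.mem_product] at hp
      have a1 := h0 _ hp.1.1
      have a2 := h0 _ hp.1.2
      have a3 := h0 _ hp.2.1.1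
      have a4 := h0 _ hp.2.1.2
      have a5 := h0 _ hp.2.2.1
      have a6 := h0 _ hp.2.2.2
      rw [← io_eq (mul_ne_zero a2 a3) (mul_ne_zero a1 a4), io_mul a2 a3, io_mul a1 a4,
        ← io_eq (mul_ne_zero a2 a5) (mul_ne_zero a1 a6), io_mul a2 a5, io_mul a1 a6]
      simp only
      rw [sub_eq_sub_iff_add_eq_add, add_comm (io F p.2.1.2), sub_eq_sub_iff_add_eq_add,
        add_comm (io F p.2.2.2)]
    rw [h1, Pool.Agent.U979.TW.card_triples (B ×ˢ B) (fun q : K × K => io F q.2 - io F q.1) (B.image (io F) - B.image (io F)) (by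
      intro p hp
      rw [Finset.mem_product] at hp
      exact Finset.sub_mem_sub (Finset.mem_image_of_mem (io F) hp.2)
        (Finset.mem_image_of_mem (io F) hp.1))]
    refine le_trans (le_of_eq ?_) h2
    apply Finset.sum_congr rfl
    intro δ _
    rw [fiber_eq B h0 htr δ]
  · -- power mean
    rcases B.eq_empty_or_nonempty with rfl | hne
    · simp
    set D := B.image (io F) - B.image (io F) with hD
    have hDle : D.card ≤ (B / B).card := card_diff_le (F := F) B h0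
    have hDpos : 0 < D.card := by
      rw [Finset.card_pos, hD]
      exact (hne.image (io F)).sub (hne.image (io F))
    have h4 := Pool.Agent.U979.TW.sum_sh (B.image (io F))
    rw [hcard] at h4
    have h5 : ((∑ δ ∈ D, (Pool.Agent.U979.TW.sh (B.image (io F)) δ : ℝ)) ^ (2 + 1)) / (D.card : ℝ) ^ 2 ≤
        ∑ δ ∈ D, (Pool.Agent.U979.TW.sh (B.image (io F)) δ : ℝ) ^ (2 + 1) :=
      pow_sum_div_card_le_sum_pow (fun δ _ => Nat.cast_nonneg _) 2
    have h6 : (∑ δ ∈ D, (Pool.Agent.U979.TW.sh (B.image (io F)) δ : ℝ)) = (B.card : ℝ) ^ 2 := by exact_mod_cast h4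
    have h7 : (∑ δ ∈ D, (Pool.Agent.U979.TW.sh (B.image (io F)) δ : ℝ) ^ (2 + 1)) ≤ 5 * (B.card : ℝ) ^ 3 := by
      exact_mod_cast h2
    rw [h6] at h5
    have h8 := h5.trans h7
    have hDpos' : (0 : ℝ) < (D.card : ℝ) ^ 2 := by positivity
    rw [div_le_iff₀ hDpos'] at h8
    have hn : (0 : ℝ) < (B.card : ℝ) ^ 3 := by
      have := Finset.card_pos.mpr hne
      positivity
    have h9 : (B.card : ℝ) ^ 3 ≤ 5 * (D.card : ℝ) ^ 2 := by
      have h10 : (B.card : ℝ) ^ 3 * (B.card : ℝ) ^ 3 ≤ (B.card : ℝ) ^ 3 * (5 * (D.card : ℝ) ^ 2) := by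
        calc (B.card : ℝ) ^ 3 * (B.card : ℝ) ^ 3 = ((B.card : ℝ) ^ 2) ^ (2 + 1) := by ring
          _ ≤ 5 * (B.card : ℝ) ^ 3 * (D.card : ℝ) ^ 2 := h8
          _ = _ := by ring
      exact le_of_mul_le_mul_left h10 hn
    have h10 : B.card ^ 3 ≤ 5 * D.card ^ 2 := by exact_mod_cast h9
    exact h10.trans (Nat.mul_le_mul_left _ (Nat.pow_le_pow_left hDle 2))

open Classical in
theorem products [IsAlgClosed F] {S0 : Submodule F K} (hS0 : Six S0) (B : Finset K) (h0 : ∀ s ∈ B, s ≠ 0)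
    (htr : ∀ s ∈ B, ∀ t ∈ B, s ≠ t → s / t ∉ Cs F K) (hB : ∀ b ∈ B, b ∈ S0) :
    (B.card : ℝ) ^ (3 / 2 : ℝ) ≤ 4 * ((B * B).card : ℝ) := by
  rcases B.eq_empty_or_nonempty with rfl | hne
  · rw [Finset.card_empty, Nat.cast_zero, Real.zero_rpow (by norm_num)]
    positivity
  have hn : 0 < B.card := Finset.card_pos.mpr hne
  have hn' : (0 : ℝ) < B.card := by exact_mod_cast hn
  have h1 := Finset.le_card_mul_mul_mulEnergy B B
  have h2 : Finset.mulEnergy B B ≤ (((B ×ˢ B) ×ˢ (B ×ˢ B)).filter (fun p => (p.1.2 * p.2.1) / (p.1.1 * p.2.2) ∈ Cs F K)).card := by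
    unfold Finset.mulEnergy
    apply Finset.card_le_card_of_injOn (fun p => ((p.1.2, p.1.1), (p.2.1, p.2.2)))
    · intro p hp
      rw [Finset.mem_coe, Finset.mem_filter, Finset.mem_product, Finset.mem_product,
        Finset.mem_product] at hp
      rw [Finset.mem_coe, Finset.mem_filter, Finset.mem_product, Finset.mem_product,
        Finset.mem_product]
      obtain ⟨⟨⟨a1, a2⟩, a3, a4⟩, h⟩ := hp
      refine ⟨⟨⟨a2, a1⟩, a3, a4⟩, ?_⟩
      simp only
      rw [h, div_self (mul_ne_zero (h0 _ a2) (h0 _ a4))]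
      exact one_mem _
    · intro p _ q _ h
      have h3 := Prod.mk.inj h
      have h4 := Prod.mk.inj h3.1
      exact Prod.ext (Prod.ext h4.2 h4.1) h3.2
  have h3 := quads hS0 B h0 htr hB
  have h4 : ((B.card : ℝ) ^ 2 * (B.card : ℝ) ^ 2) ≤
      ((B * B).card : ℝ) * (4 * (B.card : ℝ) ^ (5 / 2 : ℝ)) := by
    have h5 : ((B.card ^ 2 * B.card ^ 2 : ℕ) : ℝ) ≤ (((B * B).card * Finset.mulEnergy B B : ℕ) : ℝ) := by
      exact_mod_cast h1
    push_cast at h5
    refine h5.trans ?_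
    apply mul_le_mul_of_nonneg_left _ (Nat.cast_nonneg _)
    exact le_trans (by exact_mod_cast h2) h3
  have h6 : (B.card : ℝ) ^ 2 * (B.card : ℝ) ^ 2 =
      (B.card : ℝ) ^ (3 / 2 : ℝ) * (B.card : ℝ) ^ (5 / 2 : ℝ) := by
    rw [← Real.rpow_natCast, ← Real.rpow_add hn', ← Real.rpow_add hn']
    norm_num
  rw [h6] at h4
  have h7 : 0 < (B.card : ℝ) ^ (5 / 2 : ℝ) := Real.rpow_pos_of_pos hn' _
  have h8 : (B.card : ℝ) ^ (3 / 2 : ℝ) * (B.card : ℝ) ^ (5 / 2 : ℝ) ≤
      (4 * ((B * B).card : ℝ)) * (B.card : ℝ) ^ (5 / 2 : ℝ) := by linarith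
  exact le_of_mul_le_mul_right h8 h7

end Pool.Agent.U979.GX
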