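import Pool.Agent.U979.GX.Core

/-!
# The multiplicative group modulo the constants, as a rational vector space
-/

set_option autoImplicit false

namespace Pool.Agent.U979.GX

open Finset TensorProduct

variable {F K : Type*} [Field F] [Field K] [Algebra F K]

/-- the constants as a subgroup of the multiplicative group -/
def CsU (F K : Type*) [Field F] [Field K] [Algebra F K] : Subgroup Kˣ :=
  (Units.map (algebraMap F K).toMonoidHom).range

/-- the multiplicative group modulo the constants -/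
def QG (F K : Type*) [Field F] [Field K] [Algebra F K] : Type _ := Additive (Kˣ ⧸ CsU F K)

noncomputable instance : AddCommGroup (QG F K) :=
  inferInstanceAs (AddCommGroup (Additive (Kˣ ⧸ CsU F K)))

/-- the class of a unit -/
def cl (F : Type*) {K : Type*} [Field F] [Field K] [Algebra F K] (u : Kˣ) : QG F K :=
  Additive.ofMul (QuotientGroup.mk u : Kˣ ⧸ CsU F K)

theorem cl_mul (u v : Kˣ) : cl F (u * v) = cl F u + cl F v := rfl

theorem cl_eq_zero (u : Kˣ) : cl F u = 0 ↔ u ∈ CsU F K := by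
  have h : cl F u = 0 ↔ (QuotientGroup.mk u : Kˣ ⧸ CsU F K) = 1 := Iff.rfl
  rw [h, QuotientGroup.eq_one_iff]

theorem cl_one : cl F (1 : Kˣ) = 0 := (cl_eq_zero 1).mpr (one_mem _)

theorem cl_pow (u : Kˣ) (n : ℕ) : cl F (u ^ n) = n • cl F u := by
  induction n with
  | zero => rw [pow_zero, zero_smul, cl_one]
  | succ n ih => rw [pow_succ, cl_mul, ih, succ_nsmul]

theorem cl_inv (u : Kˣ) : cl F (u⁻¹) = -cl F u := by
  apply eq_neg_of_add_eq_zero_left
  rw [← cl_mul, inv_mul_cancel, cl_one]

theorem cl_zpow (u : Kˣ) (n : ℤ) : cl F (u ^ n) = n • cl F u := by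
  rcases Int.eq_nat_or_neg n with ⟨m, rfl | rfl⟩
  · rw [zpow_natCast, cl_pow, natCast_zsmul]
  · rw [zpow_neg, zpow_natCast, cl_inv, cl_pow, neg_zsmul, natCast_zsmul]

/-- the rational vector space -/
abbrev VQ (F K : Type*) [Field F] [Field K] [Algebra F K] : Type _ := ℚ ⊗[ℤ] QG F K

open Classical in
/-- the class of `x` -/
noncomputable def io (F : Type*) {K : Type*} [Field F] [Field K] [Algebra F K] (x : K) : VQ F K :=
  if h : x ≠ 0 then (1 : ℚ) ⊗ₜ[ℤ] cl F (Units.mk0 x h) else 0

theorem io_def {x : K} (h : x ≠ 0) : io F x = (1 : ℚ) ⊗ₜ[ℤ] cl F (Units.mk0 x h) := by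
  unfold io
  rw [dif_pos h]

theorem io_mul {x y : K} (hx : x ≠ 0) (hy : y ≠ 0) : io F (x * y) = io F x + io F y := by
  rw [io_def hx, io_def hy, io_def (mul_ne_zero hx hy), ← TensorProduct.tmul_add, ← cl_mul]
  congr 2
  exact Units.mk0_mul _ _ _

theorem io_eq_zero [IsAlgClosed F] {x : K} (hx : x ≠ 0) : io F x = 0 ↔ x ∈ Cs F K := by
  have hloc : IsLocalizedModule (nonZeroDivisors ℤ) (TensorProduct.mk ℤ ℚ (QG F K) 1) :=
    (isLocalizedModule_iff_isBaseChange (nonZeroDivisors ℤ) ℚ _).mpr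
      (TensorProduct.isBaseChange ℤ (QG F K) ℚ)
  constructor
  · intro h
    rw [io_def hx] at h
    have h1 : (TensorProduct.mk ℤ ℚ (QG F K) 1) (cl F (Units.mk0 x hx)) = 0 := h
    rw [IsLocalizedModule.eq_zero_iff (nonZeroDivisors ℤ)] at h1
    obtain ⟨⟨n, hn⟩, hc⟩ := h1
    have hn0 : n ≠ 0 := nonZeroDivisors.ne_zero hn
    have hc' : n • cl F (Units.mk0 x hx) = 0 := hc
    rw [← cl_zpow, cl_eq_zero] at hc'
    obtain ⟨u, hu⟩ := hc'
    have h3 : x ^ n = algebraMap F K (u : F) := by
      have := congrArg (fun z : Kˣ => (z : K)) hu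
      simpa using this.symm
    by_contra hx'
    have htr : Transcendental F x := transcendental_of hx'
    -- a power of `x` is constant
    have key : ∀ m : ℕ, 0 < m → ∀ c : F, x ^ m ≠ algebraMap F K c := by
      intro m hm c h4
      apply htr
      refine ⟨Polynomial.X ^ m - Polynomial.C c, Polynomial.X_pow_sub_C_ne_zero hm c, ?_⟩
      simp [h4]
    rcases Int.eq_nat_or_neg n with ⟨m, rfl | rfl⟩
    · rw [zpow_natCast] at h3
      exact key m (by omega) _ h3
    · rw [zpow_neg, zpow_natCast] at h3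
      apply key m (by omega) (u : F)⁻¹
      rw [map_inv₀, ← h3, inv_inv]
  · intro h
    obtain ⟨c, hc⟩ := mem_Cs.mp h
    have hc0 : c ≠ 0 := by
      rintro rfl
      apply hx
      rw [← hc, map_zero]
    rw [io_def hx]
    have h1 : cl F (Units.mk0 x hx) = 0 := by
      rw [cl_eq_zero]
      refine ⟨Units.mk0 c hc0, ?_⟩
      apply Units.ext
      simpa using hc
    rw [h1, TensorProduct.tmul_zero]

theorem io_one : io F (1 : K) = 0 := by
  have h := io_mul (F := F) (K := K) one_ne_zero one_ne_zero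
  rw [mul_one] at h
  exact left_eq_add.mp h

theorem io_inv {x : K} (hx : x ≠ 0) : io F x⁻¹ = -io F x := by
  have h := io_mul (F := F) hx (inv_ne_zero hx)
  rw [mul_inv_cancel₀ hx, io_one] at h
  exact eq_neg_of_add_eq_zero_right h.symm

theorem io_div {x y : K} (hx : x ≠ 0) (hy : y ≠ 0) : io F (x / y) = io F x - io F y := by
  rw [div_eq_mul_inv, io_mul hx (inv_ne_zero hy), io_inv hy, sub_eq_add_neg]

theorem io_eq [IsAlgClosed F] {x y : K} (hx : x ≠ 0) (hy : y ≠ 0) :
    io F x = io F y ↔ x / y ∈ Cs F K := by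
  rw [← io_eq_zero (div_ne_zero hx hy), io_div hx hy, sub_eq_zero]

theorem io_pow {x : K} (hx : x ≠ 0) (n : ℕ) : io F (x ^ n) = (n : ℚ) • io F x := by
  induction n with
  | zero => simp [io_one]
  | succ n ih =>
    rw [pow_succ, io_mul (pow_ne_zero n hx) hx, ih, Nat.cast_succ, add_smul, one_smul]

theorem io_zpow {x : K} (hx : x ≠ 0) (n : ℤ) : io F (x ^ n) = (n : ℚ) • io F x := by
  rcases Int.eq_nat_or_neg n with ⟨m, rfl | rfl⟩
  · rw [zpow_natCast, io_pow hx]
    simp
  · rw [zpow_neg, zpow_natCast, io_inv (pow_ne_zero m hx), io_pow hx]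
    push_cast
    rw [neg_smul]

theorem io_prod {ι : Type*} (T : Finset ι) (t : ι → K) (ht : ∀ i ∈ T, t i ≠ 0) (k : ι → ℤ) :
    io F (∏ i ∈ T, t i ^ k i) = ∑ i ∈ T, (k i : ℚ) • io F (t i) := by
  classical
  induction T using Finset.induction_on with
  | empty => simp [io_one]
  | insert i T hi ih =>
    rw [Finset.prod_insert hi, Finset.sum_insert hi, io_mul, io_zpow, ih]
    · exact fun j hj => ht j (Finset.mem_insert_of_mem hj)
    · exact ht i (Finset.mem_insert_self _ _)
    · exact zpow_ne_zero _ (ht i (Finset.mem_insert_self _ _))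
    · exact Finset.prod_ne_zero_iff.mpr
        (fun j hj => zpow_ne_zero _ (ht j (Finset.mem_insert_of_mem hj)))

theorem exists_int {ι : Type*} (T : Finset ι) (w : ι → ℚ) :
    ∃ (D : ℤ) (n : ι → ℤ), D ≠ 0 ∧ ∀ i ∈ T, (n i : ℚ) = D * w i := by
  classical
  obtain ⟨⟨b, hb⟩, hbT⟩ := IsLocalization.exist_integer_multiples_of_finset (nonZeroDivisors ℤ)
    (T.image w)
  choose g hg using hbT
  refine ⟨b, fun i => if h : i ∈ T then g (w i) (Finset.mem_image_of_mem w h) else 0,
    nonZeroDivisors.ne_zero hb, ?_⟩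
  intro i hi
  simp only [hi, dif_pos]
  have := hg (w i) (Finset.mem_image_of_mem w hi)
  rw [Algebra.smul_def] at this
  simpa using this

/-- Finitely many numbers with non constant quotients in a two dimensional space are affinely
independent modulo the constants. -/
theorem aff [IsAlgClosed F] (S : Finset K) (h0 : ∀ s ∈ S, s ≠ 0)
    (htr : ∀ s ∈ S, ∀ t ∈ S, s ≠ t → s / t ∉ Cs F K)
    (hdep : ∀ a ∈ S, ∀ b ∈ S, ∀ c ∈ S, Dep F a b c) :
    AffineIndependent ℚ (fun s : S => io F (s : K)) := by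
  classical
  by_cases hcard : S.card ≤ 1
  · have : Subsingleton S := by
      rw [← Finset.card_le_one_iff_subsingleton_coe]
      exact hcard
    exact affineIndependent_of_subsingleton ℚ _
  push Not at hcard
  obtain ⟨s0, hs0, s1, hs1, h01⟩ := Finset.one_lt_card.mp hcard
  have hτ : s1 / s0 ∉ Cs F K := htr s1 hs1 s0 hs0 (Ne.symm h01)
  set τ := s1 / s0 with hτdef
  have hs00 := h0 s0 hs0
  have hrep : ∀ s : S, ∃ α β : F, (s : K) = s0 * (algebraMap F K α + algebraMap F K β * τ) := by
    intro s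
    obtain ⟨α, β, hα, hβ, h⟩ := comb hτ (hdep s0 hs0 s1 hs1 s s.2)
    obtain ⟨α, rfl⟩ := mem_Cs.mp hα
    obtain ⟨β, rfl⟩ := mem_Cs.mp hβ
    refine ⟨α, β, ?_⟩
    rw [hτdef, h]
    field_simp
  choose α β hαβ using hrep
  have hne : ∀ s t : S, s ≠ t → α s * β t ≠ α t * β s := by
    intro s t hst h
    have hst' : (s : K) ≠ t := fun h => hst (Subtype.ext h)
    apply htr s s.2 t t.2 hst'
    have ht0 := h0 t t.2
    have hC : algebraMap F K (α s) * algebraMap F K (β t) =
        algebraMap F K (α t) * algebraMap F K (β s) := by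
      rw [← map_mul, ← map_mul, h]
    by_cases hβt : algebraMap F K (β t) = 0
    · have hαt : algebraMap F K (α t) ≠ 0 := by
        intro h1
        apply ht0
        rw [hαβ t, h1, hβt]
        ring
      have hβs : algebraMap F K (β s) = 0 := by
        rw [hβt, mul_zero] at hC
        rcases mul_eq_zero.mp hC.symm with h1 | h1
        · exact absurd h1 hαt
        · exact h1
      have : (s : K) / t = algebraMap F K (α s) / algebraMap F K (α t) := by
        rw [hαβ s, hαβ t, hβs, hβt, zero_mul, add_zero, add_zero, mul_div_mul_left _ _ hs00]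
      rw [this]
      exact div_mem (algebraMap_mem _) (algebraMap_mem _)
    · have : (s : K) / t = algebraMap F K (β s) / algebraMap F K (β t) := by
        rw [div_eq_div_iff ht0 hβt, hαβ s, hαβ t]
        linear_combination s0 * hC
      rw [this]
      exact div_mem (algebraMap_mem _) (algebraMap_mem _)
  rw [affineIndependent_iff]
  intro T w hw0 hw
  obtain ⟨D, n, hD, hn⟩ := exists_int T w
  have hD' : (D : ℚ) ≠ 0 := by exact_mod_cast hD
  have hn0 : ∑ s ∈ T, n s = 0 := by
    have : ((∑ s ∈ T, n s : ℤ) : ℚ) = 0 := by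
      push_cast
      rw [Finset.sum_congr rfl hn, ← Finset.mul_sum, hw0, mul_zero]
    exact_mod_cast this
  have hsum : ∑ s ∈ T, (n s : ℚ) • io F (s : K) = 0 := by
    have : ∀ s ∈ T, (n s : ℚ) • io F (s : K) = (D : ℚ) • (w s • io F (s : K)) := by
      intro s hs
      rw [hn s hs, mul_smul]
    rw [Finset.sum_congr rfl this, ← Finset.smul_sum, hw, smul_zero]
  have hne0 : ∀ s : S, (s : K) ≠ 0 := fun s => h0 s s.2
  have hprod : (∏ s ∈ T, (s : K) ^ (n s)) ∈ Cs F K := by
    rw [← io_eq_zero (Finset.prod_ne_zero_iff.mpr (fun s _ => zpow_ne_zero _ (hne0 s))),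
      io_prod T (fun s : S => (s : K)) (fun s _ => hne0 s)]
    exact hsum
  have hprod2 : ∏ s ∈ T, (algebraMap F K (α s) + algebraMap F K (β s) * τ) ^ (n s) =
      ∏ s ∈ T, (s : K) ^ (n s) := by
    have h1 : ∀ s ∈ T, (s : K) ^ (n s) =
        s0 ^ (n s) * (algebraMap F K (α s) + algebraMap F K (β s) * τ) ^ (n s) := by
      intro s _
      rw [← mul_zpow, ← hαβ s]
    rw [Finset.prod_congr rfl h1, Finset.prod_mul_distrib]
    have h2 : ∏ s ∈ T, s0 ^ (n s) = 1 := by
      have h3 : ∀ U : Finset S, ∏ s ∈ U, s0 ^ (n s) = s0 ^ (∑ s ∈ U, n s) := by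
        intro U
        induction U using Finset.induction_on with
        | empty => simp
        | insert i U hi ih => rw [Finset.prod_insert hi, Finset.sum_insert hi, ih, zpow_add₀ hs00]
      rw [h3, hn0, zpow_zero]
    rw [h2, one_mul]
  have hfin := mul_indep T hτ α β (fun s _ t _ hst => hne s t hst) n hn0 _ hprod hprod2
  intro s hs
  have h1 := hn s hs
  rw [hfin s hs, Int.cast_zero] at h1
  rcases mul_eq_zero.mp h1.symm with h2 | h2
  · exact absurd h2 hD'
  · exact h2

end Pool.Agent.U979.GX
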