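import Pool.Agent.U979.GX.Energy
import Pool.Agent.N770.PLogs
import Pool.Agent.W245.PB.BakerThmP

/-!
# The `p`-adic space of linear forms in logarithms has the six exponentials property
-/

set_option autoImplicit false

namespace Pool.Agent.U979.GX

open Pool.Agent.Y787 (QC)
open Pool.Agent.W254.PA (LtE logs)
open Pool.Agent.W245.PB (IsIwasawaLog)

variable {p : ℕ} [hp : Fact p.Prime] {L : PadicAlgCl p → PadicAlgCl p}

theorem six_padic (hL : IsIwasawaLog p L) :
    Six (F := algebraicClosure ℚ (PadicAlgCl p)) (LtE (logs L)) := by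
  intro ρ hρ w hw h1 h2
  exact Pool.Agent.N770.sixExp_padic hL ρ (fun c hc => hρ (mem_Cs.mpr ⟨c, hc.symm⟩)) w hw h1 h2

theorem mem_Cs_padic {x : PadicAlgCl p} :
    x ∈ Cs (algebraicClosure ℚ (PadicAlgCl p)) (PadicAlgCl p) ↔ IsAlgebraic ℚ x := by
  rw [mem_Cs]
  constructor
  · rintro ⟨c, rfl⟩
    exact mem_algebraicClosure_iff.mp c.2
  · intro h
    exact ⟨⟨x, mem_algebraicClosure_iff.mpr h⟩, rfl⟩

/-- quotients of rationally independent logarithms are transcendental -/
theorem brumer_pair (hL : IsIwasawaLog p L) {x y : PadicAlgCl p}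
    (hx : ∃ α : PadicAlgCl p, α ≠ 0 ∧ IsAlgebraic ℚ α ∧ x = L α)
    (hy : ∃ α : PadicAlgCl p, α ≠ 0 ∧ IsAlgebraic ℚ α ∧ y = L α) (hy0 : y ≠ 0)
    (hxy : ∀ q : ℚ, x ≠ q * y) : Transcendental ℚ (x / y) := by
  intro halg
  obtain ⟨α, hα0, hαa, rfl⟩ := hx
  obtain ⟨β, hβ0, hβa, rfl⟩ := hy
  have hli : LinearIndependent ℚ (fun i : Fin 2 => L (![α, β] i)) := by
    rw [Fintype.linearIndependent_iff]
    intro g hg
    rw [Fin.sum_univ_two] at hg
    simp only [Matrix.cons_val_zero, Matrix.cons_val_one] at hg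
    rw [Algebra.smul_def, Algebra.smul_def, eq_ratCast, eq_ratCast] at hg
    have h0 : g 0 = 0 := by
      by_contra hs
      apply hxy (-(g 1) / g 0)
      have hs' : ((g 0 : ℚ) : PadicAlgCl p) ≠ 0 := by exact_mod_cast hs
      push_cast
      field_simp
      linear_combination hg
    have h1 : g 1 = 0 := by
      rw [h0, Rat.cast_zero, zero_mul, zero_add] at hg
      have := (mul_eq_zero.mp hg).resolve_right hy0
      exact_mod_cast this
    intro i
    fin_cases i
    · exact h0
    · exact h1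
  have h2 := Pool.Agent.W245.PB.brumer hL ![α, β] (by
    intro i
    fin_cases i
    · exact hα0
    · exact hβ0) (by
    intro i
    fin_cases i
    · exact hαa
    · exact hβa) hli 0 isAlgebraic_zero ![1, -(L α / L β)] (by
    intro i
    fin_cases i
    · exact isAlgebraic_one
    · exact halg.neg) (by
    rw [Fin.sum_univ_two]
    simp only [Matrix.cons_val_zero, Matrix.cons_val_one]
    field_simp
    ring)
  have h3 := h2.2 0
  simp at h3

end Pool.Agent.U979.GX
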